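import Pool.Agent.Lib.MP_524519_ag.DU5.Top
import Pool.Agent.Lib.MP_524519_ag.DU5.SM.Sub

/-! # The coefficients of the restriction `rs lam h`; REG -/

set_option autoImplicit false
set_option linter.unusedSectionVars false

namespace Pool.Agent.DU5.REG

open MvPowerSeries

/-- The exponent `(a, b, c)`. -/
noncomputable def e3 (a b c : ℕ) : Fin 3 →₀ ℕ :=
  Finsupp.single 0 a + Finsupp.single 1 b + Finsupp.single 2 c

@[simp] theorem e3_0 (a b c : ℕ) : e3 a b c 0 = a := by simp [e3]
@[simp] theorem e3_1 (a b c : ℕ) : e3 a b c 1 = b := by simp [e3]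
@[simp] theorem e3_2 (a b c : ℕ) : e3 a b c 2 = c := by simp [e3]

theorem e3_eta (d : Fin 3 →₀ ℕ) : e3 (d 0) (d 1) (d 2) = d := by
  ext i
  fin_cases i <;> simp

theorem ext3 {d e : Fin 3 →₀ ℕ} (h0 : d 0 = e 0) (h1 : d 1 = e 1) (h2 : d 2 = e 2) : d = e := by
  ext i
  fin_cases i
  · exact h0
  · exact h1
  · exact h2

theorem ext2 {d e : Fin 2 →₀ ℕ} (h0 : d 0 = e 0) (h1 : d 1 = e 1) : d = e := by
  ext i
  fin_cases i
  · exact h0
  · exact h1

variable {k F : Type} [Field k] [Field F] [Algebra k F]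

/-- The point `(y, x, lam x)`. -/
noncomputable def pt (lam : F) : Fin 3 → PC.R2 F := ![(X 1 : PC.R2 F), X 0, C lam * X 0]

theorem pt_const (lam : F) (i : Fin 3) : constantCoeff (pt lam i) = 0 := by
  fin_cases i <;> simp [pt]

theorem hpt (lam : F) : HasSubst (pt lam) := hasSubst_of_constantCoeff_zero (pt_const lam)

theorem rs_eq (lam : F) (h : O k 3) : rs lam h = MvPowerSeries.subst (pt lam) h := rfl

theorem rs_mul (lam : F) (a b : O k 3) : rs lam (a * b) = rs lam a * rs lam b := by
  rw [rs_eq, rs_eq, rs_eq, ← coe_substAlgHom (hpt lam)]; exact map_mul _ _ _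

theorem rs_add (lam : F) (a b : O k 3) : rs lam (a + b) = rs lam a + rs lam b := by
  rw [rs_eq, rs_eq, rs_eq, ← coe_substAlgHom (hpt lam)]; exact map_add _ _ _

theorem prod_pt (lam : F) (d : Fin 3 →₀ ℕ) :
    (d.prod fun s e => (pt lam s) ^ e) =
      monomial (Finsupp.single 0 (d 1 + d 2) + Finsupp.single 1 (d 0)) (lam ^ (d 2)) := by
  rw [Finsupp.prod_fintype _ _ (fun i => pow_zero _), Fin.prod_univ_three]
  have h0 : pt lam 0 = X 1 := rfl
  have h1 : pt lam 1 = X 0 := rfl
  have h2 : pt lam 2 = C lam * X 0 := rfl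
  rw [h0, h1, h2, mul_pow, X_pow_eq, X_pow_eq, X_pow_eq, ← map_pow, ← monomial_zero_eq_C_apply,
    monomial_mul_monomial, monomial_mul_monomial, monomial_mul_monomial]
  congr 1
  · congr 1
    apply ext2 <;> simp
  · ring

theorem coeff_rs (lam : F) (h : O k 3) (v : Fin 2 →₀ ℕ) :
    coeff v (rs lam h) = ∑ t ∈ Finset.range (v 0 + 1),
      algebraMap k F (coeff (e3 (v 1) (v 0 - t) t) h) * lam ^ t := by
  classical
  have hinj : Set.InjOn (fun t => e3 (v 1) (v 0 - t) t) (Finset.range (v 0 + 1)) := by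
    intro a _ b _ hab
    have := congrArg (fun e => e 2) hab
    simpa using this
  rw [rs_eq, coeff_subst (hpt lam), finsum_eq_sum_of_support_subset (s := (Finset.range
    (v 0 + 1)).image (fun t => e3 (v 1) (v 0 - t) t)), Finset.sum_image hinj]
  · refine Finset.sum_congr rfl fun t ht => ?_
    have ht' : t ≤ v 0 := by
      have := Finset.mem_range.mp ht
      omega
    rw [prod_pt, coeff_monomial, if_pos, Algebra.smul_def]
    · simp
    · apply ext2
      · simp; omega
      · simp
  · intro d hd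
    rw [Function.mem_support] at hd
    rw [prod_pt, coeff_monomial] at hd
    split_ifs at hd with hv
    · rw [Finset.coe_image, Set.mem_image]
      refine ⟨d 2, ?_, ?_⟩
      · rw [hv]; simp
      · rw [hv]
        apply ext3 <;> simp
    · simp at hd

/-- **REG.** -/
theorem reg : REGStatement := by
  intro k _ F _ _ lam d f hf
  constructor
  · intro e he
    rw [coeff_rs]
    refine Finset.sum_eq_zero fun t ht => ?_
    have ht' : t ≤ e 0 := by
      have := Finset.mem_range.mp ht
      omega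
    rw [hf.low, map_zero, zero_mul]
    simp only [e3_0, e3_1, e3_2]
    omega
  · rw [coeff_rs]
    have h1 : (Finsupp.single (1 : Fin 2) d : Fin 2 →₀ ℕ) 0 = 0 := by simp
    have h2 : (Finsupp.single (1 : Fin 2) d : Fin 2 →₀ ℕ) 1 = d := by simp
    have h3 : e3 d 0 0 = Finsupp.single 0 d := by
      apply ext3 <;> simp
    rw [h1, h2, zero_add, Finset.sum_range_one, h3, pow_zero, mul_one]
    intro h
    exact hf.top ((_root_.map_eq_zero (algebraMap k F)).mp h)

end Pool.Agent.DU5.REG
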